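import Mathlib
import Pool.Agent.W662.KKS.Stmts

/-!
KKS-EXT: from unitaries to all elements of the algebra.
-/

set_option autoImplicit false

open scoped InnerProductSpace
open Pool.Agent.Helper278
open Pool.Agent.W662.KKS

namespace Pool.Agent.W598.KKS

variable {H : Type} [NormedAddCommGroup H] [InnerProductSpace ℂ H] [CompleteSpace H]

theorem vn_closed (M : VonNeumannAlgebra H) : IsClosed (M : Set (H →L[ℂ] H)) := by
  rw [← M.centralizer_centralizer]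
  exact Set.isClosed_centralizer _

theorem vn_smul (M : VonNeumannAlgebra H) (z : ℂ) (x : H →L[ℂ] H) (hx : x ∈ M) : z • x ∈ M :=
  M.toStarSubalgebra.smul_mem hx z

theorem four (M : VonNeumannAlgebra H) (x : H →L[ℂ] H) (hx : x ∈ M) :
    ∃ u : Fin 4 → (H →L[ℂ] H), ∃ z : Fin 4 → ℂ, (∀ i, u i ∈ M) ∧
      (∀ i, u i ∈ unitary (H →L[ℂ] H)) ∧ x = ∑ i, z i • u i ∧ ∀ i, ‖z i‖ ≤ ‖x‖ / 2 := by
  have : IsClosed ((M.toStarSubalgebra : StarSubalgebra ℂ (H →L[ℂ] H)) : Set (H →L[ℂ] H)) :=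
    vn_closed M
  let _ : CStarAlgebra M.toStarSubalgebra := StarSubalgebra.cstarAlgebra M.toStarSubalgebra
  obtain ⟨u, z, h1, h2⟩ :=
    CStarAlgebra.exists_sum_four_unitary (⟨x, hx⟩ : M.toStarSubalgebra)
  refine ⟨fun i => ((u i : M.toStarSubalgebra) : H →L[ℂ] H), z,
    fun i => (u i : M.toStarSubalgebra).2, fun i => ?_, ?_, fun i => h2 i⟩
  · have h3 := (u i).2
    rw [Unitary.mem_iff] at h3 ⊢
    exact ⟨congrArg Subtype.val h3.1, congrArg Subtype.val h3.2⟩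
  · have h4 := congrArg (Subtype.val : M.toStarSubalgebra → (H →L[ℂ] H)) h1
    simp only at h4
    rw [h4]
    simp

theorem norm_unitary (u : H →L[ℂ] H) (hu : u ∈ unitary (H →L[ℂ] H)) : ‖u‖ ≤ 1 := by
  have h1 : ‖u‖ * ‖u‖ = ‖(1 : H →L[ℂ] H)‖ := by
    rw [← CStarRing.norm_star_mul_self, (Unitary.mem_iff.1 hu).1]
  have h2 : ‖(1 : H →L[ℂ] H)‖ ≤ 1 := ContinuousLinearMap.norm_id_le
  nlinarith [norm_nonneg u]

omit [CompleteSpace H] in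
theorem dc_left (ξ : H) (ρ : (H →L[ℂ] H) → (H →L[ℂ] H)) (S : H →L[ℂ] H) (x : Fin 4 → (H →L[ℂ] H))
    (z : Fin 4 → ℂ) (a : H →L[ℂ] H) :
    dc ξ ρ S (∑ i, z i • x i) a = ∑ i, z i • dc ξ ρ S (x i) a := by
  simp only [dc, Fin.sum_univ_four]
  simp only [mul_add, add_mul, sub_apply, add_apply,
    mul_smul_comm, smul_mul_assoc, smul_apply, map_add, map_sub, map_smul,
    smul_sub]
  abel

theorem dc_right (M : VonNeumannAlgebra H) (ξ : H) (ρ : (H →L[ℂ] H) → (H →L[ℂ] H))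
    (hS : Std M ξ ρ) (S x : H →L[ℂ] H) (z : Fin 4 → ℂ) (a : Fin 4 → (H →L[ℂ] H))
    (ha : ∀ i, a i ∈ M) :
    dc ξ ρ S x (∑ i, z i • a i) = ∑ i, z i • dc ξ ρ S x (a i) := by
  have hm : ∀ i, z i • a i ∈ M := fun i => vn_smul M _ _ (ha i)
  have h1 : ρ (∑ i, z i • a i) = ∑ i, z i • ρ (a i) := by
    rw [Fin.sum_univ_four, Fin.sum_univ_four, hS.add _ (add_mem (add_mem (hm 0) (hm 1)) (hm 2)) _
      (hm 3), hS.add _ (add_mem (hm 0) (hm 1)) _ (hm 2), hS.add _ (hm 0) _ (hm 1),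
      hS.smul _ _ (ha 0), hS.smul _ _ (ha 1), hS.smul _ _ (ha 2), hS.smul _ _ (ha 3)]
  simp only [dc]
  rw [h1]
  simp only [Fin.sum_univ_four]
  simp only [sub_apply, add_apply,
    smul_apply, map_add, map_sub, map_smul,
    smul_sub]
  abel

theorem c_left {M : VonNeumannAlgebra H} {ξ : H} {ρ : (H →L[ℂ] H) → (H →L[ℂ] H)}
    {c : (H →L[ℂ] H) → (H →L[ℂ] H) → H} {T T' : (H →L[ℂ] H) → (H →L[ℂ] H)} {γ δ ε : ℝ}
    (hC : CD M ξ ρ c T T' γ δ ε) (x : Fin 4 → (H →L[ℂ] H)) (hx : ∀ i, x i ∈ M)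
    (z : Fin 4 → ℂ) (a : H →L[ℂ] H) (ha : a ∈ M) :
    c (∑ i, z i • x i) a = ∑ i, z i • c (x i) a := by
  have hm : ∀ i, z i • x i ∈ M := fun i => vn_smul M _ _ (hx i)
  rw [Fin.sum_univ_four, Fin.sum_univ_four,
    hC.add1 _ (add_mem (add_mem (hm 0) (hm 1)) (hm 2)) _ (hm 3) a ha,
    hC.add1 _ (add_mem (hm 0) (hm 1)) _ (hm 2) a ha, hC.add1 _ (hm 0) _ (hm 1) a ha,
    hC.smul1 _ _ (hx 0) a ha, hC.smul1 _ _ (hx 1) a ha, hC.smul1 _ _ (hx 2) a ha,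
    hC.smul1 _ _ (hx 3) a ha]

theorem c_right {M : VonNeumannAlgebra H} {ξ : H} {ρ : (H →L[ℂ] H) → (H →L[ℂ] H)}
    {c : (H →L[ℂ] H) → (H →L[ℂ] H) → H} {T T' : (H →L[ℂ] H) → (H →L[ℂ] H)} {γ δ ε : ℝ}
    (hε : 0 ≤ ε) (hC : CD M ξ ρ c T T' γ δ ε) (u : H →L[ℂ] H) (hu : u ∈ M) (hu1 : ‖u‖ ≤ 1)
    (v : Fin 4 → (H →L[ℂ] H)) (hv : ∀ i, v i ∈ M) (hv1 : ∀ i, ‖v i‖ ≤ 1)
    (z : Fin 4 → ℂ) (r : ℝ) (hr : ∀ i, ‖z i‖ ≤ r) :
    ‖c u (∑ i, z i • v i) - ∑ i, z i • c u (v i)‖ ≤ 13 * r * ε := by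
  have hr0 : 0 ≤ r := (norm_nonneg _).trans (hr 0)
  have hm : ∀ i, z i • v i ∈ M := fun i => vn_smul M _ _ (hv i)
  have hn : ∀ i, ‖z i • v i‖ ≤ r := fun i => by
    rw [norm_smul]
    calc ‖z i‖ * ‖v i‖ ≤ r * 1 := mul_le_mul (hr i) (hv1 i) (norm_nonneg _) hr0
      _ = r := mul_one r
  have key : ∀ s t : H →L[ℂ] H, s ∈ M → t ∈ M → ∀ p q : ℝ, ‖s‖ ≤ p → ‖t‖ ≤ q →
      ‖c u (s + t) - c u s - c u t‖ ≤ (p + q) * ε := by
    intro s t hs ht p q hp hq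
    have h1 := hC.add2 u hu s hs t ht
    have h2 : ε * ‖u‖ * (‖s‖ + ‖t‖) ≤ ε * 1 * (p + q) := by
      apply mul_le_mul _ (add_le_add hp hq) (add_nonneg (norm_nonneg _) (norm_nonneg _))
        (by linarith)
      exact mul_le_mul_of_nonneg_left hu1 hε
    calc _ ≤ _ := h1
      _ ≤ _ := h2
      _ = _ := by ring
  have ks : ∀ i, ‖c u (z i • v i) - z i • c u (v i)‖ ≤ r * ε := by
    intro i
    have h1 := hC.smul2 u hu (z i) (v i) (hv i)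
    have h2 : ε * ‖u‖ * (‖z i‖ * ‖v i‖) ≤ ε * 1 * (r * 1) := by
      apply mul_le_mul _ (mul_le_mul (hr i) (hv1 i) (norm_nonneg _) hr0)
        (mul_nonneg (norm_nonneg _) (norm_nonneg _)) (by linarith)
      exact mul_le_mul_of_nonneg_left hu1 hε
    calc _ ≤ _ := h1
      _ ≤ _ := h2
      _ = _ := by ring
  have n01 : ‖z 0 • v 0 + z 1 • v 1‖ ≤ 2 * r :=
    (norm_add_le _ _).trans (by linarith [hn 0, hn 1])
  have n012 : ‖z 0 • v 0 + z 1 • v 1 + z 2 • v 2‖ ≤ 3 * r :=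
    (norm_add_le _ _).trans (by linarith [hn 2])
  have k1 := key _ _ (add_mem (add_mem (hm 0) (hm 1)) (hm 2)) (hm 3) _ _ n012 (hn 3)
  have k2 := key _ _ (add_mem (hm 0) (hm 1)) (hm 2) _ _ n01 (hn 2)
  have k3 := key _ _ (hm 0) (hm 1) _ _ (hn 0) (hn 1)
  rw [Fin.sum_univ_four, Fin.sum_univ_four]
  have e : c u (z 0 • v 0 + z 1 • v 1 + z 2 • v 2 + z 3 • v 3) -
      (z 0 • c u (v 0) + z 1 • c u (v 1) + z 2 • c u (v 2) + z 3 • c u (v 3)) =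
      (c u (z 0 • v 0 + z 1 • v 1 + z 2 • v 2 + z 3 • v 3) -
        c u (z 0 • v 0 + z 1 • v 1 + z 2 • v 2) - c u (z 3 • v 3)) +
      (c u (z 0 • v 0 + z 1 • v 1 + z 2 • v 2) - c u (z 0 • v 0 + z 1 • v 1) - c u (z 2 • v 2)) +
      (c u (z 0 • v 0 + z 1 • v 1) - c u (z 0 • v 0) - c u (z 1 • v 1)) +
      (c u (z 0 • v 0) - z 0 • c u (v 0)) + (c u (z 1 • v 1) - z 1 • c u (v 1)) +
      (c u (z 2 • v 2) - z 2 • c u (v 2)) + (c u (z 3 • v 3) - z 3 • c u (v 3)) := by abel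
  rw [e]
  have t1 := norm_add_le ((c u (z 0 • v 0 + z 1 • v 1 + z 2 • v 2 + z 3 • v 3) -
        c u (z 0 • v 0 + z 1 • v 1 + z 2 • v 2) - c u (z 3 • v 3)) +
      (c u (z 0 • v 0 + z 1 • v 1 + z 2 • v 2) - c u (z 0 • v 0 + z 1 • v 1) - c u (z 2 • v 2)) +
      (c u (z 0 • v 0 + z 1 • v 1) - c u (z 0 • v 0) - c u (z 1 • v 1)) +
      (c u (z 0 • v 0) - z 0 • c u (v 0)) + (c u (z 1 • v 1) - z 1 • c u (v 1)) +
      (c u (z 2 • v 2) - z 2 • c u (v 2))) (c u (z 3 • v 3) - z 3 • c u (v 3))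
  have t2 := norm_add_le ((c u (z 0 • v 0 + z 1 • v 1 + z 2 • v 2 + z 3 • v 3) -
        c u (z 0 • v 0 + z 1 • v 1 + z 2 • v 2) - c u (z 3 • v 3)) +
      (c u (z 0 • v 0 + z 1 • v 1 + z 2 • v 2) - c u (z 0 • v 0 + z 1 • v 1) - c u (z 2 • v 2)) +
      (c u (z 0 • v 0 + z 1 • v 1) - c u (z 0 • v 0) - c u (z 1 • v 1)) +
      (c u (z 0 • v 0) - z 0 • c u (v 0)) + (c u (z 1 • v 1) - z 1 • c u (v 1)))
      (c u (z 2 • v 2) - z 2 • c u (v 2))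
  have t3 := norm_add_le ((c u (z 0 • v 0 + z 1 • v 1 + z 2 • v 2 + z 3 • v 3) -
        c u (z 0 • v 0 + z 1 • v 1 + z 2 • v 2) - c u (z 3 • v 3)) +
      (c u (z 0 • v 0 + z 1 • v 1 + z 2 • v 2) - c u (z 0 • v 0 + z 1 • v 1) - c u (z 2 • v 2)) +
      (c u (z 0 • v 0 + z 1 • v 1) - c u (z 0 • v 0) - c u (z 1 • v 1)) +
      (c u (z 0 • v 0) - z 0 • c u (v 0))) (c u (z 1 • v 1) - z 1 • c u (v 1))
  have t4 := norm_add_le ((c u (z 0 • v 0 + z 1 • v 1 + z 2 • v 2 + z 3 • v 3) -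
        c u (z 0 • v 0 + z 1 • v 1 + z 2 • v 2) - c u (z 3 • v 3)) +
      (c u (z 0 • v 0 + z 1 • v 1 + z 2 • v 2) - c u (z 0 • v 0 + z 1 • v 1) - c u (z 2 • v 2)) +
      (c u (z 0 • v 0 + z 1 • v 1) - c u (z 0 • v 0) - c u (z 1 • v 1)))
      (c u (z 0 • v 0) - z 0 • c u (v 0))
  have t5 := norm_add_le ((c u (z 0 • v 0 + z 1 • v 1 + z 2 • v 2 + z 3 • v 3) -
        c u (z 0 • v 0 + z 1 • v 1 + z 2 • v 2) - c u (z 3 • v 3)) +
      (c u (z 0 • v 0 + z 1 • v 1 + z 2 • v 2) - c u (z 0 • v 0 + z 1 • v 1) - c u (z 2 • v 2)))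
      (c u (z 0 • v 0 + z 1 • v 1) - c u (z 0 • v 0) - c u (z 1 • v 1))
  have t6 := norm_add_le (c u (z 0 • v 0 + z 1 • v 1 + z 2 • v 2 + z 3 • v 3) -
        c u (z 0 • v 0 + z 1 • v 1 + z 2 • v 2) - c u (z 3 • v 3))
      (c u (z 0 • v 0 + z 1 • v 1 + z 2 • v 2) - c u (z 0 • v 0 + z 1 • v 1) - c u (z 2 • v 2))
  have s0 := ks 0
  have s1 := ks 1
  have s2 := ks 2
  have s3 := ks 3
  linarith

theorem ext' : S_EXT := by
  refine ⟨13, by norm_num, ?_⟩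
  intro H _ _ _ M ξ ρ c T T' γ δ ε hStd hε hC S ε' hε' hu x hx a ha
  obtain ⟨u, z, uM, uU, hxe, hz⟩ := four M x hx
  obtain ⟨v, w, vM, vU, hae, hw⟩ := four M a ha
  have hna := norm_nonneg a
  have hnx := norm_nonneg x
  -- the bound for unitaries on the left
  have h1 : ∀ i, ‖c (u i) a + dc ξ ρ S (u i) a‖ ≤ 13 * (‖a‖ / 2) * ε + 4 * (‖a‖ / 2) * ε' := by
    intro i
    have h2 := c_right hε hC (u i) (uM i) (norm_unitary _ (uU i)) v vM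
      (fun j => norm_unitary _ (vU j)) w (‖a‖ / 2) hw
    rw [← hae] at h2
    have h3 : dc ξ ρ S (u i) a = ∑ j, w j • dc ξ ρ S (u i) (v j) := by
      conv_lhs => rw [hae]
      exact dc_right M ξ ρ hStd S (u i) w v vM
    have h4 : c (u i) a + dc ξ ρ S (u i) a = (c (u i) a - ∑ j, w j • c (u i) (v j)) +
        ∑ j, w j • (c (u i) (v j) + dc ξ ρ S (u i) (v j)) := by
      rw [h3]
      simp only [smul_add, Finset.sum_add_distrib]
      abel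
    have h5 : ‖∑ j, w j • (c (u i) (v j) + dc ξ ρ S (u i) (v j))‖ ≤ 4 * (‖a‖ / 2) * ε' := by
      have h6 : ∀ j ∈ (Finset.univ : Finset (Fin 4)),
          ‖w j • (c (u i) (v j) + dc ξ ρ S (u i) (v j))‖ ≤ (‖a‖ / 2) * ε' := by
        intro j _
        rw [norm_smul]
        exact mul_le_mul (hw j) (hu _ (uM i) _ (vM j) (uU i) (vU j)) (norm_nonneg _)
          (by positivity)
      have h7 := norm_sum_le_of_le _ h6
      simp only [Finset.sum_const, Finset.card_univ, Fintype.card_fin, nsmul_eq_mul] at h7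
      calc _ ≤ _ := h7
        _ = _ := by push_cast; ring
    rw [h4]
    exact (norm_add_le _ _).trans (add_le_add h2 h5)
  have h8 : c x a + dc ξ ρ S x a = ∑ i, z i • (c (u i) a + dc ξ ρ S (u i) a) := by
    have e1 : c x a = ∑ i, z i • c (u i) a := by
      conv_lhs => rw [hxe]
      exact c_left hC u uM z a ha
    have e2 : dc ξ ρ S x a = ∑ i, z i • dc ξ ρ S (u i) a := by
      conv_lhs => rw [hxe]
      exact dc_left ξ ρ S u z a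
    rw [e1, e2]
    simp only [smul_add, Finset.sum_add_distrib]
  rw [h8]
  have h9 : ∀ i ∈ (Finset.univ : Finset (Fin 4)),
      ‖z i • (c (u i) a + dc ξ ρ S (u i) a)‖ ≤
        (‖x‖ / 2) * (13 * (‖a‖ / 2) * ε + 4 * (‖a‖ / 2) * ε') := by
    intro i _
    rw [norm_smul]
    exact mul_le_mul (hz i) (h1 i) (norm_nonneg _) (by positivity)
  have h10 := norm_sum_le_of_le _ h9
  simp only [Finset.sum_const, Finset.card_univ, Fintype.card_fin, nsmul_eq_mul] at h10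
  refine h10.trans ?_
  have h11 : 0 ≤ ε' * (‖x‖ * ‖a‖) := by positivity
  push_cast
  nlinarith

end Pool.Agent.W598.KKS
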